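import Mathlib

set_option autoImplicit false

namespace Pool.Agent.Helper15.GPCover

open Filter

/-- Analysis lemma: two-sided bounds give the limits of the lower and upper limits. -/
theorem limits (m : ℕ → ℕ → ℕ) (e : ℕ → ℝ) (he : Tendsto e atTop (nhds 0))
    (K : ℕ) (hlow : ∀ k ≥ K, ∀ N : ℕ, 1 ≤ N → (1 / 2 - e k) * (N : ℝ) ≤ (m k N : ℝ))
    (hupp : ∀ k ≥ K, ∀ N : ℕ, 1 ≤ N → (m k N : ℝ) ≤ (1 / 2 + e k) * (N : ℝ) + 1) :
    Tendsto (fun k => liminf (fun N : ℕ => (m k N : ℝ) / (N : ℝ)) atTop) atTop (nhds (1 / 2)) ∧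
    Tendsto (fun k => limsup (fun N : ℕ => (m k N : ℝ) / (N : ℝ)) atTop) atTop (nhds (1 / 2)) := by
  have L : ∀ k ≥ K, ∀ᶠ N : ℕ in atTop, 1 / 2 - e k ≤ (m k N : ℝ) / (N : ℝ) := by
    intro k hk
    filter_upwards [eventually_ge_atTop 1] with N hN
    have hN' : (0 : ℝ) < N := by exact_mod_cast hN
    rw [le_div_iff₀ hN']
    exact hlow k hk N hN
  have U : ∀ k ≥ K, ∀ d > 0, ∀ᶠ N : ℕ in atTop, (m k N : ℝ) / (N : ℝ) ≤ 1 / 2 + e k + d := by
    intro k hk d hd
    obtain ⟨M, hM⟩ := exists_nat_gt (1 / d)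
    filter_upwards [eventually_ge_atTop (max M 1)] with N hN
    have hN1 : 1 ≤ N := le_trans (le_max_right _ _) hN
    have hNM : (M : ℝ) ≤ N := by exact_mod_cast le_trans (le_max_left _ _) hN
    have hN' : (0 : ℝ) < N := by exact_mod_cast hN1
    rw [div_le_iff₀ hN']
    have h1 := hupp k hk N hN1
    have h2 : 1 / d < N := lt_of_lt_of_le hM hNM
    have h3 : 1 < d * N := by
      rw [div_lt_iff₀ hd] at h2
      linarith
    nlinarith
  have bddA : ∀ k ≥ K, IsBoundedUnder (· ≤ ·) atTop (fun N : ℕ => (m k N : ℝ) / (N : ℝ)) := fun k hk =>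
    isBoundedUnder_of_eventually_le (U k hk 1 one_pos)
  have bddB : ∀ k ≥ K, IsBoundedUnder (· ≥ ·) atTop (fun N : ℕ => (m k N : ℝ) / (N : ℝ)) := fun k hk =>
    isBoundedUnder_of_eventually_ge (L k hk)
  have h1 : ∀ k ≥ K, 1 / 2 - e k ≤ liminf (fun N : ℕ => (m k N : ℝ) / (N : ℝ)) atTop := by
    intro k hk
    exact le_liminf_of_le (bddA k hk).isCoboundedUnder_ge (L k hk)
  have h2 : ∀ k ≥ K, limsup (fun N : ℕ => (m k N : ℝ) / (N : ℝ)) atTop ≤ 1 / 2 + e k := by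
    intro k hk
    apply le_of_forall_pos_le_add
    intro d hd
    exact limsup_le_of_le (bddB k hk).isCoboundedUnder_le (U k hk d hd)
  have h3 : ∀ k ≥ K, liminf (fun N : ℕ => (m k N : ℝ) / (N : ℝ)) atTop ≤
      limsup (fun N : ℕ => (m k N : ℝ) / (N : ℝ)) atTop := fun k hk =>
    liminf_le_limsup (bddA k hk) (bddB k hk)
  have t1 : Tendsto (fun k => 1 / 2 - e k) atTop (nhds (1 / 2)) := by
    have := (tendsto_const_nhds (x := (1 / 2 : ℝ)) (f := atTop (α := ℕ))).sub he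
    simpa using this
  have t2 : Tendsto (fun k => 1 / 2 + e k) atTop (nhds (1 / 2)) := by
    have := (tendsto_const_nhds (x := (1 / 2 : ℝ)) (f := atTop (α := ℕ))).add he
    simpa using this
  constructor
  · apply tendsto_of_tendsto_of_tendsto_of_le_of_le' t1 t2
    · filter_upwards [eventually_ge_atTop K] with k hk using h1 k hk
    · filter_upwards [eventually_ge_atTop K] with k hk using (h3 k hk).trans (h2 k hk)
  · apply tendsto_of_tendsto_of_tendsto_of_le_of_le' t1 t2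
    · filter_upwards [eventually_ge_atTop K] with k hk using (h1 k hk).trans (h3 k hk)
    · filter_upwards [eventually_ge_atTop K] with k hk using h2 k hk

/-- The progressions with ratio two cover, and there are few of them. -/
theorem upper (k N : ℕ) (hk : 1 ≤ k) : ∃ F : Finset (Finset ℕ),
    (∀ S ∈ F, ∃ a : ℕ, 1 ≤ a ∧ S = (Finset.range k).image (fun i => a * 2 ^ i)) ∧
    (∀ x, 1 ≤ x → x ≤ N → ∃ S ∈ F, x ∈ S) ∧ (F.card : ℝ) ≤ (1 / 2 + 1 / 2 ^ k) * (N : ℝ) + 1 := by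
  classical
  refine ⟨((Finset.Ioc 0 N).filter (fun n => ¬ 2 ∣ n ∨ 2 ^ k ∣ n)).image
    (fun a => (Finset.range k).image (fun i => a * 2 ^ i)), ?_, ?_, ?_⟩
  · intro S hS
    rw [Finset.mem_image] at hS
    obtain ⟨a, ha, rfl⟩ := hS
    rw [Finset.mem_filter, Finset.mem_Ioc] at ha
    exact ⟨a, ha.1.1, rfl⟩
  · intro x hx1 hxN
    obtain ⟨v, n, hn, hxn⟩ : ∃ v n : ℕ, ¬ 2 ∣ n ∧ x = 2 ^ v * n :=
      Nat.exists_eq_pow_mul_and_not_dvd (by omega) 2 (by norm_num)
    have hdm := Nat.div_add_mod v k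
    have hvk : v = k * (v / k) + v % k := hdm.symm
    refine ⟨(Finset.range k).image (fun i => (2 ^ (k * (v / k)) * n) * 2 ^ i), ?_, ?_⟩
    · rw [Finset.mem_image]
      refine ⟨2 ^ (k * (v / k)) * n, ?_, rfl⟩
      have hn0 : 0 < n := by
        rcases Nat.eq_zero_or_pos n with rfl | h
        · simp at hn
        · exact h
      rw [Finset.mem_filter, Finset.mem_Ioc]
      refine ⟨⟨by positivity, ?_⟩, ?_⟩
      · calc 2 ^ (k * (v / k)) * n ≤ 2 ^ v * n :=
              Nat.mul_le_mul_right n (Nat.pow_le_pow_right (by norm_num) (Nat.mul_div_le v k))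
          _ = x := hxn.symm
          _ ≤ N := hxN
      · rcases Nat.eq_zero_or_pos (v / k) with h0 | h0
        · left
          rw [h0]
          simpa using hn
        · right
          exact Dvd.dvd.mul_right (pow_dvd_pow 2 (Nat.le_mul_of_pos_right k h0)) n
    · rw [Finset.mem_image]
      refine ⟨v % k, Finset.mem_range.2 (Nat.mod_lt v hk), ?_⟩
      rw [hxn]
      calc 2 ^ (k * (v / k)) * n * 2 ^ (v % k) = 2 ^ (k * (v / k)) * 2 ^ (v % k) * n := by ring
        _ = 2 ^ (k * (v / k) + v % k) * n := by rw [pow_add]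
        _ = 2 ^ v * n := by rw [hdm]
  · have h1 : (((Finset.Ioc 0 N).filter (fun n => ¬ 2 ∣ n ∨ 2 ^ k ∣ n)).image
      (fun a => (Finset.range k).image (fun i => a * 2 ^ i))).card ≤
        ((Finset.Ioc 0 N).filter (fun n => ¬ 2 ∣ n)).card +
        ((Finset.Ioc 0 N).filter (fun n => 2 ^ k ∣ n)).card := by
      refine Finset.card_image_le.trans ?_
      rw [Finset.filter_or]
      exact Finset.card_union_le _ _
    have h2 : ((Finset.Ioc 0 N).filter (fun n => 2 ^ k ∣ n)).card = N / 2 ^ k :=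
      Nat.Ioc_filter_dvd_card_eq_div N (2 ^ k)
    have h3 : ((Finset.Ioc 0 N).filter (fun n => 2 ∣ n)).card = N / 2 :=
      Nat.Ioc_filter_dvd_card_eq_div N 2
    have h4 := Finset.card_filter_add_card_filter_not (s := Finset.Ioc 0 N) (fun n => 2 ∣ n)
    rw [Nat.card_Ioc, h3] at h4
    have h5 : ((Finset.Ioc 0 N).filter (fun n => ¬ 2 ∣ n)).card = N - N / 2 := by omega
    rw [h2, h5] at h1
    have h6 : ((N - N / 2 : ℕ) : ℝ) ≤ (N : ℝ) / 2 + 1 := by
      have : 2 * (N - N / 2) ≤ N + 2 := by omega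
      have h7 : (2 : ℝ) * ((N - N / 2 : ℕ) : ℝ) ≤ (N : ℝ) + 2 := by exact_mod_cast this
      linarith
    have h8 : ((N / 2 ^ k : ℕ) : ℝ) ≤ (N : ℝ) / 2 ^ k := by
      have := Nat.cast_div_le (α := ℝ) (m := N) (n := 2 ^ k)
      simpa using this
    have h9 : ((((Finset.Ioc 0 N).filter (fun n => ¬ 2 ∣ n ∨ 2 ^ k ∣ n)).image
      (fun a => (Finset.range k).image (fun i => a * 2 ^ i))).card : ℝ) ≤
        ((N - N / 2 : ℕ) : ℝ) + ((N / 2 ^ k : ℕ) : ℝ) := by exact_mod_cast h1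
    have h10 : (1 / 2 + 1 / 2 ^ k) * (N : ℝ) + 1 = (N : ℝ) / 2 + 1 + (N : ℝ) / 2 ^ k := by ring
    rw [h10]
    linarith

end Pool.Agent.Helper15.GPCover
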