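import Mathlib

set_option autoImplicit false

namespace Pool.Agent.Helper15.RadoBF

/-- A classed relation with the extension property, where two vertices of nonzero class are unrelated. -/
structure Gen (C : Set ℕ) (cl : ℕ → ℕ) (A : ℕ → ℕ → Prop) : Prop where
  symm : ∀ x y, A x y → A y x
  irrefl : ∀ x, ¬ A x x
  mem : ∀ x, cl x ∈ C
  indep : ∀ x y, cl x ≠ 0 → cl y ≠ 0 → ¬ A x y
  ext : ∀ (S : Finset ℕ) (a : ℕ → Prop) (c : ℕ), c ∈ C → (c ≠ 0 → ∀ s ∈ S, cl s ≠ 0 → ¬ a s) →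
    ∃ y, y ∉ S ∧ cl y = c ∧ ∀ s ∈ S, (A s y ↔ a s)

/-- Finite partial isomorphisms. -/
def Good (clX clY : ℕ → ℕ) (AX AY : ℕ → ℕ → Prop) (f : Finset (ℕ × ℕ)) : Prop :=
  ∀ p ∈ f, clX p.1 = clY p.2 ∧ ∀ q ∈ f, (p.1 = q.1 ↔ p.2 = q.2) ∧ (AX p.1 q.1 ↔ AY p.2 q.2)

theorem Good.flip {clX clY : ℕ → ℕ} {AX AY : ℕ → ℕ → Prop} {f : Finset (ℕ × ℕ)}
    (h : Good clX clY AX AY f) : Good clY clX AY AX (f.image Prod.swap) := by
  intro p hp
  rw [Finset.mem_image] at hp
  obtain ⟨p', hp', rfl⟩ := hp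
  refine ⟨(h p' hp').1.symm, ?_⟩
  intro q hq
  rw [Finset.mem_image] at hq
  obtain ⟨q', hq', rfl⟩ := hq
  have := (h p' hp').2 q' hq'
  exact ⟨this.1.symm, this.2.symm⟩

theorem extend {C : Set ℕ} {clX clY : ℕ → ℕ} {AX AY : ℕ → ℕ → Prop} (hX : Gen C clX AX) (hY : Gen C clY AY)
    (f : Finset (ℕ × ℕ)) (hf : Good clX clY AX AY f) (x : ℕ) :
    ∃ y, Good clX clY AX AY (insert (x, y) f) := by
  classical
  by_cases hx : ∃ y, (x, y) ∈ f
  · obtain ⟨y, hy⟩ := hx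
    exact ⟨y, by rw [Finset.insert_eq_self.2 hy]; exact hf⟩
  · obtain ⟨y, hy1, hy2, hy3⟩ := hY.ext (f.image Prod.snd) (fun s => ∃ x', (x', s) ∈ f ∧ AX x' x) (clX x)
      (hX.mem x) (by
        intro hc s hs hs0
        rintro ⟨x', hx', hA⟩
        have h1 := (hf _ hx').1
        simp only at h1
        exact hX.indep x' x (by rw [h1]; exact hs0) hc hA)
    refine ⟨y, ?_⟩
    have key : ∀ q ∈ f, (x ≠ q.1 ∧ y ≠ q.2) ∧ (AX q.1 x ↔ AY q.2 y) := by
      intro q hq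
      have hq2 : q.2 ∈ f.image Prod.snd := Finset.mem_image.2 ⟨q, hq, rfl⟩
      refine ⟨⟨?_, ?_⟩, ?_⟩
      · intro h
        exact hx ⟨q.2, by rw [h]; exact hq⟩
      · intro h
        rw [← h] at hq2
        exact hy1 hq2
      · rw [hy3 q.2 hq2]
        constructor
        · intro h
          exact ⟨q.1, hq, h⟩
        · rintro ⟨x', hx', hA⟩
          have h1 := ((hf _ hx').2 q hq).1
          have h2 : x' = q.1 := h1.2 rfl
          rw [← h2]
          exact hA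
    intro p hp
    rw [Finset.mem_insert] at hp
    rcases hp with rfl | hp
    · refine ⟨hy2.symm, ?_⟩
      intro q hq
      rw [Finset.mem_insert] at hq
      rcases hq with rfl | hq
      · exact ⟨Iff.intro (fun _ => rfl) (fun _ => rfl),
          Iff.intro (fun h => absurd h (hX.irrefl x)) (fun h => absurd h (hY.irrefl y))⟩
      · obtain ⟨⟨k1, k2⟩, k3⟩ := key q hq
        refine ⟨Iff.intro (fun h => absurd h k1) (fun h => absurd h k2), ?_⟩
        constructor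
        · intro h
          exact hY.symm _ _ (k3.1 (hX.symm _ _ h))
        · intro h
          exact hX.symm _ _ (k3.2 (hY.symm _ _ h))
    · refine ⟨(hf p hp).1, ?_⟩
      intro q hq
      rw [Finset.mem_insert] at hq
      rcases hq with rfl | hq
      · obtain ⟨⟨k1, k2⟩, k3⟩ := key p hp
        exact ⟨Iff.intro (fun h => absurd h.symm k1) (fun h => absurd h.symm k2), k3⟩
      · exact (hf p hp).2 q hq

theorem extend' {C : Set ℕ} {clX clY : ℕ → ℕ} {AX AY : ℕ → ℕ → Prop} (hX : Gen C clX AX) (hY : Gen C clY AY)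
    (f : Finset (ℕ × ℕ)) (hf : Good clX clY AX AY f) (y : ℕ) :
    ∃ x, Good clX clY AX AY (insert (x, y) f) := by
  obtain ⟨x, hx⟩ := extend hY hX _ hf.flip y
  refine ⟨x, ?_⟩
  have := hx.flip
  rw [Finset.image_insert, Finset.image_image] at this
  simpa using this

/-- Back and forth. -/
theorem backforth {C : Set ℕ} {clX clY : ℕ → ℕ} {AX AY : ℕ → ℕ → Prop} (hX : Gen C clX AX)
    (hY : Gen C clY AY) (f0 : Finset (ℕ × ℕ)) (hf0 : Good clX clY AX AY f0) :
    ∃ e : ℕ ≃ ℕ, (∀ x, clX x = clY (e x)) ∧ (∀ x x', AX x x' ↔ AY (e x) (e x')) ∧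
      ∀ p ∈ f0, e p.1 = p.2 := by
  classical
  have hstep : ∀ (f : {f : Finset (ℕ × ℕ) // Good clX clY AX AY f}) (n : ℕ),
      ∃ g : {f : Finset (ℕ × ℕ) // Good clX clY AX AY f}, f.1 ⊆ g.1 ∧ (∃ y, (n, y) ∈ g.1) ∧
        (∃ x, (x, n) ∈ g.1) := by
    rintro ⟨f, hf⟩ n
    obtain ⟨y, hy⟩ := extend hX hY f hf n
    obtain ⟨x, hx⟩ := extend' hX hY _ hy n
    refine ⟨⟨_, hx⟩, ?_, ⟨y, ?_⟩, ⟨x, ?_⟩⟩
    · exact (Finset.subset_insert _ _).trans (Finset.subset_insert _ _)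
    · exact Finset.mem_insert_of_mem (Finset.mem_insert_self _ _)
    · exact Finset.mem_insert_self _ _
  choose step h1 h2 h3 using hstep
  let F : ℕ → {f : Finset (ℕ × ℕ) // Good clX clY AX AY f} :=
    fun n => Nat.rec ⟨f0, hf0⟩ (fun n f => step f n) n
  have hF : ∀ n, F (n + 1) = step (F n) n := fun _ => rfl
  have hmono : ∀ n m, n ≤ m → (F n).1 ⊆ (F m).1 := by
    intro n m hnm
    induction m, hnm using Nat.le_induction with
    | base => exact Finset.Subset.refl _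
    | succ m _ ih =>
      rw [hF m]
      exact ih.trans (h1 _ _)
  have hdom : ∀ x, ∃ y, ∃ n, (x, y) ∈ (F n).1 := by
    intro x
    obtain ⟨y, hy⟩ := h2 (F x) x
    exact ⟨y, x + 1, by rw [hF]; exact hy⟩
  have hran : ∀ y, ∃ x, ∃ n, (x, y) ∈ (F n).1 := by
    intro y
    obtain ⟨x, hx⟩ := h3 (F y) y
    exact ⟨x, y + 1, by rw [hF]; exact hx⟩
  have hjoin : ∀ p q : ℕ × ℕ, (∃ n, p ∈ (F n).1) → (∃ n, q ∈ (F n).1) →
      (p.1 = q.1 ↔ p.2 = q.2) ∧ (AX p.1 q.1 ↔ AY p.2 q.2) := by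
    rintro p q ⟨n, hn⟩ ⟨m, hm⟩
    have hp := hmono n (max n m) (le_max_left _ _) hn
    have hq := hmono m (max n m) (le_max_right _ _) hm
    exact ((F (max n m)).2 p hp).2 q hq
  choose φ hφ using hdom
  choose ψ hψ using hran
  let e : ℕ ≃ ℕ :=
    { toFun := φ
      invFun := ψ
      left_inv := by
        intro x
        exact (hjoin (ψ (φ x), φ x) (x, φ x) (hψ (φ x)) (hφ x)).1.2 rfl
      right_inv := by
        intro y
        exact (hjoin (ψ y, φ (ψ y)) (ψ y, y) (hφ (ψ y)) (hψ y)).1.1 rfl }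
  refine ⟨e, ?_, ?_, ?_⟩
  · intro x
    obtain ⟨n, hn⟩ := hφ x
    exact ((F n).2 _ hn).1
  · intro x x'
    exact (hjoin (x, φ x) (x', φ x') (hφ x) (hφ x')).2
  · intro p hp
    exact (hjoin (p.1, φ p.1) p (hφ p.1) ⟨0, hp⟩).1.1 rfl

/-- Two-point homogeneity. -/
theorem twopoint {C : Set ℕ} {cl : ℕ → ℕ} {A : ℕ → ℕ → Prop} (hX : Gen C cl A) (x y x' y' : ℕ)
    (hxy : x ≠ y) (hxy' : x' ≠ y') (hx : cl x = cl x') (hy : cl y = cl y') (hA : A x y ↔ A x' y') :
    ∃ e : ℕ ≃ ℕ, (∀ x, cl x = cl (e x)) ∧ (∀ x x', A x x' ↔ A (e x) (e x')) ∧ e x = x' ∧ e y = y' := by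
  have hgood : Good cl cl A A {(x, x'), (y, y')} := by
    intro p hp
    rw [Finset.mem_insert, Finset.mem_singleton] at hp
    have hA' : A y x ↔ A y' x' :=
      ⟨fun h => hX.symm _ _ (hA.1 (hX.symm _ _ h)), fun h => hX.symm _ _ (hA.2 (hX.symm _ _ h))⟩
    rcases hp with rfl | rfl
    · refine ⟨hx, ?_⟩
      intro q hq
      rw [Finset.mem_insert, Finset.mem_singleton] at hq
      rcases hq with rfl | rfl
      · exact ⟨Iff.intro (fun _ => rfl) (fun _ => rfl),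
          Iff.intro (fun h => absurd h (hX.irrefl _)) (fun h => absurd h (hX.irrefl _))⟩
      · exact ⟨Iff.intro (fun h => absurd h hxy) (fun h => absurd h hxy'), hA⟩
    · refine ⟨hy, ?_⟩
      intro q hq
      rw [Finset.mem_insert, Finset.mem_singleton] at hq
      rcases hq with rfl | rfl
      · exact ⟨Iff.intro (fun h => absurd h.symm hxy) (fun h => absurd h.symm hxy'), hA'⟩
      · exact ⟨Iff.intro (fun _ => rfl) (fun _ => rfl),
          Iff.intro (fun h => absurd h (hX.irrefl _)) (fun h => absurd h (hX.irrefl _))⟩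
  obtain ⟨e, h1, h2, h3⟩ := backforth hX hX _ hgood
  exact ⟨e, h1, h2, h3 (x, x') (Finset.mem_insert_self _ _),
    h3 (y, y') (Finset.mem_insert_of_mem (Finset.mem_singleton_self _))⟩

/-- A number with prescribed binary digits on a finite set and large. -/
theorem digits (S : Finset ℕ) (a : ℕ → Prop) : ∃ n : ℕ, (∀ s ∈ S, s < n) ∧ ∀ s ∈ S, (n.testBit s = true ↔ a s) := by
  classical
  obtain ⟨M, hM⟩ : ∃ M, ∀ s ∈ S, s < M := ⟨S.sup id + 1, fun s hs =>
    Nat.lt_succ_of_le (Finset.le_sup (f := id) hs)⟩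
  refine ⟨Nat.ofBits (fun i : Fin (M + 1) => decide (i.val = M ∨ a i.val)), ?_, ?_⟩
  · intro s hs
    have h1 : (Nat.ofBits (fun i : Fin (M + 1) => decide (i.val = M ∨ a i.val))).testBit M = true := by
      rw [Nat.testBit_ofBits_lt _ _ (Nat.lt_succ_self M)]
      simp
    have h2 := Nat.ge_two_pow_of_testBit h1
    exact (hM s hs).trans (lt_of_lt_of_le Nat.lt_two_pow_self h2)
  · intro s hs
    have hsM := hM s hs
    rw [Nat.testBit_ofBits_lt _ _ (Nat.lt_succ_of_lt hsM)]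
    simp only [decide_eq_true_eq]
    constructor
    · rintro (h | h)
      · omega
      · exact h
    · intro h
      exact Or.inr h

/-- The classes. -/
def cl (x : ℕ) : ℕ := (Nat.unpair x).1

/-- The codes. -/
def code (x : ℕ) : ℕ := (Nat.unpair x).2

/-- The adjacency of the classed graph. -/
def A (x y : ℕ) : Prop :=
  ¬ (cl x ≠ 0 ∧ cl y ≠ 0) ∧ ((x < y ∧ (code y).testBit x = true) ∨ (y < x ∧ (code x).testBit y = true))

theorem A_symm (x y : ℕ) (h : A x y) : A y x := ⟨fun hc => h.1 ⟨hc.2, hc.1⟩, h.2.symm⟩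

theorem A_irrefl (x : ℕ) : ¬ A x x := by
  rintro ⟨-, h | h⟩
  · exact lt_irrefl _ h.1
  · exact lt_irrefl _ h.1

theorem A_ext (S : Finset ℕ) (a : ℕ → Prop) (c : ℕ) (hc : c ≠ 0 → ∀ s ∈ S, cl s ≠ 0 → ¬ a s) :
    ∃ y, y ∉ S ∧ cl y = c ∧ ∀ s ∈ S, (A s y ↔ a s) := by
  obtain ⟨n, hn1, hn2⟩ := digits S a
  have hcl : cl (Nat.pair c n) = c := by
    unfold cl
    rw [Nat.unpair_pair]
  have hco : code (Nat.pair c n) = n := by
    unfold code
    rw [Nat.unpair_pair]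
  have hlt : ∀ s ∈ S, s < Nat.pair c n := fun s hs => lt_of_lt_of_le (hn1 s hs) (Nat.right_le_pair c n)
  refine ⟨Nat.pair c n, ?_, hcl, ?_⟩
  · intro h
    exact lt_irrefl _ (hlt _ h)
  · intro s hs
    unfold A
    rw [hcl, hco]
    constructor
    · rintro ⟨-, h | h⟩
      · exact (hn2 s hs).1 h.2
      · exact absurd h.1 (not_lt.2 (hlt s hs).le)
    · intro h
      exact ⟨fun hcc => hc hcc.2 s hs hcc.1 h, Or.inl ⟨hlt s hs, (hn2 s hs).2 h⟩⟩

theorem gen_A : Gen Set.univ cl A where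
  symm := A_symm
  irrefl := A_irrefl
  mem := fun _ => Set.mem_univ _
  indep := fun _ _ h1 h2 h => h.1 ⟨h1, h2⟩
  ext := fun S a c _ hc => A_ext S a c hc

theorem gen_A0 : Gen {0} (fun _ => 0) A where
  symm := A_symm
  irrefl := A_irrefl
  mem := fun _ => rfl
  indep := fun _ _ h1 _ _ => h1 rfl
  ext := by
    intro S a c hc _
    obtain ⟨y, h1, h2, h3⟩ := A_ext S a 0 (fun h => absurd rfl h)
    exact ⟨y, h1, hc.symm, h3⟩

/-- The adjacency of the Rado graph. -/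
def R : ℕ → ℕ → Prop := (SimpleGraph.fromRel (fun i j : ℕ => Nat.testBit j i = true)).Adj

theorem R_iff (x y : ℕ) (h : x < y) : R x y ↔ y.testBit x = true := by
  unfold R
  rw [SimpleGraph.fromRel_adj]
  constructor
  · rintro ⟨-, h1 | h1⟩
    · exact h1
    · have h2 : x.testBit y = false := Nat.testBit_lt_two_pow (h.trans Nat.lt_two_pow_self)
      rw [h2] at h1
      exact absurd h1 (by simp)
  · intro h1
    exact ⟨h.ne, Or.inl h1⟩

theorem R_ext (S : Finset ℕ) (a : ℕ → Prop) : ∃ y, y ∉ S ∧ ∀ s ∈ S, (R s y ↔ a s) := by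
  obtain ⟨n, hn1, hn2⟩ := digits S a
  refine ⟨n, fun h => lt_irrefl _ (hn1 _ h), ?_⟩
  intro s hs
  rw [R_iff s n (hn1 s hs)]
  exact hn2 s hs

theorem gen_R : Gen {0} (fun _ => 0) R where
  symm := fun x y h => by
    unfold R at h ⊢
    exact SimpleGraph.Adj.symm h
  irrefl := fun x h => by
    unfold R at h
    exact SimpleGraph.irrefl _ h
  mem := fun _ => rfl
  indep := fun _ _ h1 _ _ => h1 rfl
  ext := by
    intro S a c hc _
    obtain ⟨y, h1, h2⟩ := R_ext S a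
    exact ⟨y, h1, hc.symm, h2⟩

end Pool.Agent.Helper15.RadoBF
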